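import Mathlib

set_option autoImplicit false

/-!
# Graphs of free actions of `ℤᵈ` and locally checkable labelling problems on graphs

`FreePart d` is the set `X` of all `x` in `2^{ℤᵈ}` with `g • x ≠ x` for all `g ≠ 0`, where
`(g • x) h = x (h + g)`.  The shift graph joins `x` with `e_i • x` for the standard basis vectors
`e_i`.
A locally checkable labelling problem is given by a finite set of labels, a radius `r` and a set of
isomorphism types of rooted labelled graphs: a predicate on rooted labelled graphs which is invariant
under isomorphisms.  A labelling of a graph is a solution at the vertex `v` if the ball of radius `r`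
around `v` (the graph induced on the vertices at distance at most `r`), rooted at `v` and labelled by
the labelling, satisfies the predicate.
-/

namespace Pool.Agent.H75C.SG

open MeasureTheory

/-! ## actions and their graphs -/

/-- `a` is a free action of `ℤᵈ` on `Y`: `a g y` is the point `g • y`. -/
structure IsFreeAction {d : ℕ} {Y : Type} (a : (Fin d → ℤ) → Y → Y) : Prop where
  zero : ∀ y, a 0 y = y
  add : ∀ g h y, a (g + h) y = a g (a h y)
  free : ∀ g y, a g y = y → g = 0

/-- the graph of the action `a`: two different points `x`, `y` are adjacent if `y = e_i • x` or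
`x = e_i • y` for a standard basis vector `e_i` -/
def graphOf {d : ℕ} {Y : Type} (a : (Fin d → ℤ) → Y → Y) : SimpleGraph Y :=
  SimpleGraph.fromRel fun x y => ∃ i : Fin d, y = a (Pi.single i 1) x

/-! ## the shift graph -/

/-- the space `2^{ℤᵈ}` -/
abbrev Conf (d : ℕ) := (Fin d → ℤ) → Bool

/-- the shift action `(g • x) h = x (h + g)` -/
def shift {d : ℕ} (g : Fin d → ℤ) (x : Conf d) : Conf d := fun h => x (h + g)

/-- the free part of `2^{ℤᵈ}`, with the subspace topology and its Borel structure -/
abbrev FreePart (d : ℕ) := {x : Conf d // ∀ g : Fin d → ℤ, g ≠ 0 → shift g x ≠ x}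

theorem shift_shift {d : ℕ} (g h : Fin d → ℤ) (x : Conf d) :
    shift g (shift h x) = shift (g + h) x := by
  funext k
  change x (k + g + h) = x (k + (g + h))
  rw [add_assoc]

theorem shift_zero {d : ℕ} (x : Conf d) : shift 0 x = x := by
  funext k
  change x (k + 0) = x k
  rw [add_zero]

/-- the action of `ℤᵈ` on the free part -/
def act {d : ℕ} (g : Fin d → ℤ) (x : FreePart d) : FreePart d :=
  ⟨shift g x.1, fun h hh e => x.2 h hh (by
    have := congrArg (shift (-g)) e
    rw [shift_shift, shift_shift, shift_shift, neg_add_cancel, shift_zero,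
      show -g + h + g = h by abel] at this
    exact this)⟩

/-- the shift graph -/
def shiftGraph (d : ℕ) : SimpleGraph (FreePart d) := graphOf act

/-! ## labelling problems -/

/-- the ball of radius `r` around the vertex `v` -/
def ball {V : Type} (G : SimpleGraph V) (r : ℕ) (v : V) : Set V :=
  {w | ∃ p : G.Walk v w, p.length ≤ r}

theorem mem_ball_self {V : Type} (G : SimpleGraph V) (r : ℕ) (v : V) : v ∈ ball G r v :=
  ⟨SimpleGraph.Walk.nil, Nat.zero_le _⟩

/-- A locally checkable labelling problem: a finite set `Lab` of labels, a radius `r`, and a set of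
isomorphism types of rooted labelled graphs, given as a predicate `P V G v f` (the graph `G` on `V`
with root `v` and labelling `f`) which is invariant under isomorphisms. -/
structure LCL where
  /-- the labels -/
  Lab : Type
  /-- there are finitely many labels -/
  fin : Finite Lab
  /-- the radius -/
  r : ℕ
  /-- the allowed rooted labelled graphs -/
  P : ∀ V : Type, SimpleGraph V → V → (V → Lab) → Prop
  /-- invariance under isomorphisms -/
  iso : ∀ (V W : Type) (G : SimpleGraph V) (H : SimpleGraph W) (e : G ≃g H) (v : V) (f : V → Lab),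
    P V G v f → P W H (e v) (f ∘ e.symm)

/-- the labelling `f` of `G` solves the problem at the vertex `v`: the ball around `v`, rooted at
`v` and labelled by `f`, is allowed -/
def LCL.SolvesAt (L : LCL) {V : Type} (G : SimpleGraph V) (f : V → L.Lab) (v : V) : Prop :=
  L.P (ball G L.r v) (G.induce (ball G L.r v)) ⟨v, mem_ball_self G L.r v⟩ (fun w => f w.1)

/-- a Borel solution on the shift graph -/
def LCL.HasBorelSolution (L : LCL) (d : ℕ) : Prop :=
  ∃ f : FreePart d → L.Lab, (∀ l, MeasurableSet (f ⁻¹' {l})) ∧
    ∀ x, L.SolvesAt (shiftGraph d) f x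

/-- a Baire measurable solution on the shift graph: a Borel solution on an invariant comeagre Borel
set -/
def LCL.HasBaireSolution (L : LCL) (d : ℕ) : Prop :=
  ∃ (f : FreePart d → L.Lab) (C : Set (FreePart d)), (∀ l, MeasurableSet (f ⁻¹' {l})) ∧
    MeasurableSet C ∧ (∀ g, ∀ x ∈ C, act g x ∈ C) ∧ C ∈ residual (FreePart d) ∧
    ∀ x ∈ C, L.SolvesAt (shiftGraph d) f x

/-- for the measure `μ` there is a measurable labelling which solves the problem at almost every
vertex of the shift graph -/
def LCL.HasSolutionFor (L : LCL) {d : ℕ} (μ : Measure (FreePart d)) : Prop :=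
  ∃ f : FreePart d → L.Lab, (∀ l, NullMeasurableSet (f ⁻¹' {l}) μ) ∧
    ∀ᵐ x ∂μ, L.SolvesAt (shiftGraph d) f x

/-- on the graph of every free action of `ℤᵈ` by Borel maps on a Polish space there is a labelling
with the property of Baire which solves the problem at every vertex -/
def LCL.BaireSolvable (L : LCL) (d : ℕ) : Prop :=
  ∀ (Y : Type) [TopologicalSpace Y] [PolishSpace Y] [MeasurableSpace Y] [BorelSpace Y]
    (a : (Fin d → ℤ) → Y → Y), IsFreeAction a → (∀ g, Measurable (a g)) →
    ∃ f : Y → L.Lab, (∀ l, BaireMeasurableSet (f ⁻¹' {l})) ∧ ∀ y, L.SolvesAt (graphOf a) f y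

end Pool.Agent.H75C.SG
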