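import Pool.Agent.H75C.SG.Defs
import Pool.Agent.W927.BM.Own

set_option autoImplicit false

/-! # The labelling problem on graphs: the directions are encoded in the labels -/

noncomputable section

namespace Pool.Agent.H75C.SG

open Pool.Agent.W927.BM (Lab Rule Rule_congr emb)

variable {d : ℕ}

/-! ## directions -/

/-- directions -/
abbrev Dir (d : ℕ) := Fin d × Bool

/-- the unit vector of a direction -/
def vec (δ : Dir d) : Fin d → ℤ := if δ.2 then Pi.single δ.1 1 else -Pi.single δ.1 1

/-- the opposite direction -/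
def opp (δ : Dir d) : Dir d := (δ.1, !δ.2)

theorem opp_opp (δ : Dir d) : opp (opp δ) = δ := by
  obtain ⟨i, b⟩ := δ
  simp [opp]

theorem opp_ne (δ : Dir d) : opp δ ≠ δ := by
  obtain ⟨i, b⟩ := δ
  simp [opp]

theorem vec_opp (δ : Dir d) : vec (opp δ) = -vec δ := by
  obtain ⟨i, b⟩ := δ
  cases b <;> simp [vec, opp]

theorem vec_self (δ : Dir d) : vec δ δ.1 = if δ.2 then 1 else -1 := by
  obtain ⟨i, b⟩ := δ
  cases b <;> simp [vec]

theorem vec_of_ne (δ : Dir d) (j : Fin d) (h : j ≠ δ.1) : vec δ j = 0 := by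
  obtain ⟨i, b⟩ := δ
  cases b <;> simp [vec, Pi.single_eq_of_ne h]

theorem vec_ne_zero (δ : Dir d) : vec δ ≠ 0 := by
  intro h
  have := congrFun h δ.1
  rw [vec_self] at this
  split_ifs at this <;> simp at this

theorem vec_injective : Function.Injective (vec : Dir d → Fin d → ℤ) := by
  intro δ ε h
  by_cases h1 : δ.1 = ε.1
  · have h2 := congrFun h δ.1
    rw [vec_self, h1, vec_self] at h2
    refine Prod.ext h1 ?_
    cases h3 : δ.2 <;> cases h4 : ε.2 <;> rw [h3, h4] at h2 <;> simp at h2 <;> rfl
  · have h2 := congrFun h δ.1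
    rw [vec_self, vec_of_ne ε δ.1 h1] at h2
    cases h3 : δ.2 <;> rw [h3] at h2 <;> simp at h2

/-- the coordinate of `vec x` in the direction `c` -/
def pr (c x : Dir d) : ℤ := (if c.2 then 1 else -1) * vec x c.1

theorem pr_self (c : Dir d) : pr c c = 1 := by
  unfold pr
  rw [vec_self]
  split_ifs <;> simp

theorem pr_le (c x : Dir d) (h : x ≠ c) : pr c x ≤ 0 := by
  unfold pr
  by_cases h1 : c.1 = x.1
  · rw [h1, vec_self]
    have h2 : x.2 ≠ c.2 := fun h2 => h (Prod.ext h1.symm h2)
    split_ifs with a b b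
    · exact absurd (b.trans a.symm) h2
    · simp
    · simp
    · simp only [Bool.not_eq_true] at a b
      exact absurd (b.trans a.symm) h2
  · rw [vec_of_ne x c.1 h1, mul_zero]

theorem pr_opp (c x : Dir d) : pr c (opp x) = -pr c x := by
  unfold pr
  rw [vec_opp, Pi.neg_apply, mul_neg]

theorem pr_ge (c x : Dir d) (h : x ≠ opp c) : 0 ≤ pr c x := by
  have h1 : opp x ≠ c := fun h1 => h (by rw [← h1, opp_opp])
  have := pr_le c (opp x) h1
  rw [pr_opp] at this
  omega

theorem pr_le_one (c x : Dir d) : pr c x ≤ 1 := by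
  by_cases h : x = c
  · rw [h, pr_self]
  · exact (pr_le c x h).trans zero_le_one

/-- if two sums of two unit vectors agree then they have the same terms or vanish -/
theorem vec_add_eq {a b c e : Dir d} (h : vec a + vec b = vec c + vec e) (hac : a ≠ c)
    (h0 : vec a + vec b ≠ 0) : b = c := by
  by_contra hbc
  have h1 : pr c a + pr c b = pr c c + pr c e := by
    unfold pr
    rw [← mul_add, ← mul_add]
    have := congrFun h c.1
    simp only [Pi.add_apply] at this
    rw [this]
  have h2 : e ≠ opp c := by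
    rintro rfl
    apply h0
    rw [h, vec_opp, add_neg_cancel]
  have h3 := pr_le c a hac
  have h4 := pr_le c b hbc
  have h5 := pr_ge c e h2
  rw [pr_self] at h1
  omega

/-! ## words in the directions -/

/-- the sum of a word -/
def wsum (l : List (Dir d)) : Fin d → ℤ := (l.map vec).sum

theorem wsum_nil : wsum ([] : List (Dir d)) = 0 := rfl

theorem wsum_cons (δ : Dir d) (l : List (Dir d)) : wsum (δ :: l) = vec δ + wsum l := by
  simp [wsum]

theorem wsum_append (l m : List (Dir d)) : wsum (l ++ m) = wsum l + wsum m := by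
  simp [wsum]

/-! ## the action -/

section Action

variable {Y : Type} {a : (Fin d → ℤ) → Y → Y}

theorem IsFreeAction.inj (ha : IsFreeAction a) {g h : Fin d → ℤ} {x : Y} (e : a g x = a h x) :
    g = h := by
  have h1 : a (-h + g) x = x := by
    rw [ha.add, e, ← ha.add, neg_add_cancel, ha.zero]
  have h2 := ha.free _ _ h1
  rwa [neg_add_eq_zero, eq_comm] at h2

theorem adj_iff (ha : IsFreeAction a) (x y : Y) :
    (graphOf a).Adj x y ↔ ∃ δ : Dir d, y = a (vec δ) x := by
  unfold graphOf
  rw [SimpleGraph.fromRel_adj]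
  constructor
  · rintro ⟨-, ⟨i, h⟩ | ⟨i, h⟩⟩
    · exact ⟨(i, true), by simpa [vec] using h⟩
    · refine ⟨(i, false), ?_⟩
      have h1 : vec ((i, false) : Dir d) = -Pi.single i 1 := by simp [vec]
      rw [h1, h, ← ha.add, neg_add_cancel, ha.zero]
  · rintro ⟨δ, rfl⟩
    refine ⟨fun h => vec_ne_zero δ (ha.free _ _ h.symm), ?_⟩
    obtain ⟨i, b⟩ := δ
    cases b
    · refine Or.inr ⟨i, ?_⟩
      have h1 : vec ((i, false) : Dir d) = -Pi.single i 1 := by simp [vec]
      rw [h1, ← ha.add, add_neg_cancel, ha.zero]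
    · exact Or.inl ⟨i, by simp [vec]⟩

/-- a walk along a word -/
theorem exists_walk (ha : IsFreeAction a) (l : List (Dir d)) (x : Y) :
    ∃ p : (graphOf a).Walk x (a (wsum l) x), p.length ≤ l.length := by
  induction l with
  | nil =>
    rw [wsum_nil, ha.zero]
    exact ⟨SimpleGraph.Walk.nil, le_rfl⟩
  | cons δ l ih =>
    obtain ⟨p, hp⟩ := ih
    have h : (graphOf a).Adj (a (wsum l) x) (a (wsum (δ :: l)) x) := by
      rw [adj_iff ha]
      exact ⟨δ, by rw [← ha.add, wsum_cons]⟩
    refine ⟨p.concat h, ?_⟩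
    rw [SimpleGraph.Walk.length_concat, List.length_cons]
    omega

end Action

theorem act_zero (x : FreePart d) : act 0 x = x := Subtype.ext (shift_zero _)

theorem act_act (g h : Fin d → ℤ) (x : FreePart d) : act g (act h x) = act (g + h) x :=
  Subtype.ext (shift_shift _ _ _)

theorem act_free (g : Fin d → ℤ) (x : FreePart d) (h : act g x = x) : g = 0 := by
  by_contra hg
  exact x.2 g hg (congrArg Subtype.val h)

theorem isFree_act : IsFreeAction (act : (Fin d → ℤ) → FreePart d → FreePart d) :=
  ⟨act_zero, fun g h x => (act_act g h x).symm, act_free⟩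

theorem act_inj {g h : Fin d → ℤ} {x : FreePart d} (e : act g x = act h x) : g = h :=
  isFree_act.inj e

/-! ## the problem -/

/-- Labels: a colour from `Fin N`, a table which assigns directions to colours, and a label of the
problem on `ℤ²`. -/
abbrev ELab (d N : ℕ) : Type := Fin N × (Fin N → Dir d) × Lab

/-- the direction from the vertex with label `a` to its neighbour with label `b` -/
def dirOf {N : ℕ} (a b : ELab d N) : Dir d := a.2.1 b.1

/-- A chart at the root `v`: a map from `ℤᵈ` to the vertices which follows the directions up to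
distance four and whose labels obey the rule of the problem on `ℤ²`. -/
structure IsChart {N : ℕ} (hd : 2 ≤ d) {V : Type} (G : SimpleGraph V) (v : V) (f : V → ELab d N)
    (φ : (Fin d → ℤ) → V) : Prop where
  zero : φ 0 = v
  adj : ∀ (l : List (Dir d)) (δ : Dir d), l.length ≤ 3 →
    G.Adj (φ (wsum l)) (φ (wsum l + vec δ))
  dir : ∀ (l : List (Dir d)) (δ : Dir d), l.length ≤ 3 →
    dirOf (f (φ (wsum l))) (f (φ (wsum l + vec δ))) = δ
  rule : Rule (fun t s => (f (φ (emb hd t s))).2.2) 0 0

/-- the labelling problem on graphs -/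
def prob (hd : 2 ≤ d) (N : ℕ) : LCL where
  Lab := ELab d N
  fin := inferInstance
  r := 4
  P := fun _ G v f => ∃ φ, IsChart hd G v f φ
  iso := by
    rintro V W G H e v f ⟨φ, h⟩
    refine ⟨fun g => e (φ g), ?_, ?_, ?_, ?_⟩
    · rw [h.zero]
    · intro l δ hl
      exact e.map_rel_iff.2 (h.adj l δ hl)
    · intro l δ hl
      simpa using h.dir l δ hl
    · simpa using h.rule

end Pool.Agent.H75C.SG
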