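import Pool.Agent.H75C.SG.Pos

set_option autoImplicit false

/-! # A solution on an orbit comes with constant directions -/

noncomputable section

namespace Pool.Agent.H75C.SG

open Pool.Agent.W927.BM (Lab Rule Rule_congr emb emb_add emb_zero emb_eq_zero)

variable {d : ℕ}

/-- the coded direction of the true direction `ε` at `y` -/
def DD {N : ℕ} (f : FreePart d → ELab d N) (y : FreePart d) (ε : Dir d) : Dir d :=
  dirOf (f y) (f (act (vec ε) y))

/-- what a solution gives at a point -/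
structure Loc {N : ℕ} (hd : 2 ≤ d) (f : FreePart d → ELab d N) (y : FreePart d)
    (φ : (Fin d → ℤ) → FreePart d) : Prop where
  zero : φ 0 = y
  step : ∀ (l : List (Dir d)) (δ : Dir d), l.length ≤ 3 →
    ∃ ε : Dir d, φ (wsum l + vec δ) = act (vec ε) (φ (wsum l)) ∧ DD f (φ (wsum l)) ε = δ
  rule : Rule (fun t s => (f (φ (emb hd t s))).2.2) 0 0

theorem exists_loc (hd : 2 ≤ d) {N : ℕ} {f : FreePart d → ELab d N} {y : FreePart d}
    (h : (prob hd N).SolvesAt (shiftGraph d) f y) : ∃ φ, Loc hd f y φ := by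
  obtain ⟨φ, h0, h1, h2, h3⟩ := h
  refine ⟨fun g => (φ g).1, ?_, ?_, ?_⟩
  · rw [h0]
  · intro l δ hl
    have h4 : (graphOf act).Adj (φ (wsum l)).1 (φ (wsum l + vec δ)).1 := h1 l δ hl
    rw [adj_iff isFree_act] at h4
    obtain ⟨ε, hε⟩ := h4
    refine ⟨ε, hε, ?_⟩
    unfold DD
    rw [← hε]
    exact h2 l δ hl
  · exact h3

variable {N : ℕ} {hd : 2 ≤ d} {f : FreePart d → ELab d N} {x₀ : FreePart d}

theorem DD_bij (H : ∀ g, ∃ φ, Loc hd f (act g x₀) φ) (g : Fin d → ℤ) :
    Function.Bijective (DD f (act g x₀)) := by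
  refine Function.Surjective.bijective_of_finite fun δ => ?_
  obtain ⟨φ, hφ⟩ := H g
  obtain ⟨ε, -, h2⟩ := hφ.step [] δ (by simp)
  rw [wsum_nil, hφ.zero] at h2
  exact ⟨ε, h2⟩

/-- going back -/
theorem DD_back (H : ∀ g, ∃ φ, Loc hd f (act g x₀) φ) (g : Fin d → ℤ) (ε : Dir d) :
    DD f (act (vec ε) (act g x₀)) (opp ε) = opp (DD f (act g x₀) ε) := by
  obtain ⟨φ, hφ⟩ := H g
  set y := act g x₀ with hy
  set δ := DD f y ε with hδ
  obtain ⟨ε₁, h1, h2⟩ := hφ.step [] δ (by simp)
  rw [wsum_nil, hφ.zero, zero_add] at h1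
  rw [wsum_nil, hφ.zero] at h2
  have e1 : ε₁ = ε := (DD_bij H g).1 (h2.trans hδ)
  subst e1
  obtain ⟨ε₂, h3, h4⟩ := hφ.step [δ] (opp δ) (by simp)
  have h5 : wsum [δ] = vec δ := by rw [wsum_cons, wsum_nil, add_zero]
  rw [h5, vec_opp, add_neg_cancel, hφ.zero, h1, act_act] at h3
  rw [h5, h1] at h4
  have h6 : vec ε₂ + vec ε₁ = 0 := act_free _ _ h3.symm
  have h7 : ε₂ = opp ε₁ := by
    apply vec_injective
    rw [vec_opp]
    exact eq_neg_of_add_eq_zero_left h6
  rw [← h7, h4]

/-- the directions at a neighbour, away from the line -/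
theorem DD_comm (H : ∀ g, ∃ φ, Loc hd f (act g x₀) φ) (g : Fin d → ℤ) {ε ε' : Dir d}
    (h : ε' ≠ ε) (h' : DD f (act g x₀) ε' ≠ opp (DD f (act g x₀) ε)) :
    DD f (act (vec ε) (act g x₀)) ε' = DD f (act g x₀) ε' := by
  have hback := DD_back H g ε
  obtain ⟨φ, hφ⟩ := H g
  have hbij := DD_bij H g
  set y := act g x₀ with hy
  have fst : ∀ ζ, φ (vec (DD f y ζ)) = act (vec ζ) y := by
    intro ζ
    obtain ⟨ε₁, h1, h2⟩ := hφ.step [] (DD f y ζ) (by simp)
    rw [wsum_nil, hφ.zero, zero_add] at h1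
    rw [wsum_nil, hφ.zero] at h2
    rw [h1, hbij.1 h2]
  have snd : ∀ ζ δ, ∃ a, φ (vec (DD f y ζ) + vec δ) = act (vec a) (act (vec ζ) y) ∧
      DD f (act (vec ζ) y) a = δ := by
    intro ζ δ
    obtain ⟨a, h1, h2⟩ := hφ.step [DD f y ζ] δ (by simp)
    have h5 : wsum [DD f y ζ] = vec (DD f y ζ) := by rw [wsum_cons, wsum_nil, add_zero]
    rw [h5, fst] at h1 h2
    exact ⟨a, h1, h2⟩
  obtain ⟨a, ha1, ha2⟩ := snd ε (DD f y ε')
  obtain ⟨b, hb1, hb2⟩ := snd ε' (DD f y ε)
  rw [add_comm, hb1, act_act (vec b) (vec ε') y, act_act (vec a) (vec ε) y] at ha1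
  have h1 : vec b + vec ε' = vec a + vec ε := act_inj ha1
  have h0 : vec ε + vec a ≠ 0 := by
    intro h0
    have h2 : a = opp ε := by
      apply vec_injective
      rw [vec_opp]
      exact eq_neg_of_add_eq_zero_right h0
    rw [h2, hback] at ha2
    exact h' ha2.symm
  have h3 : a = ε' := vec_add_eq (a := ε) (b := a) (c := ε') (e := b)
    (by rw [add_comm (vec ε), ← h1, add_comm]) (Ne.symm h) h0
  rw [h3] at ha2
  exact ha2

theorem DD_opp (H : ∀ g, ∃ φ, Loc hd f (act g x₀) φ) (g : Fin d → ℤ) (ε : Dir d) :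
    DD f (act g x₀) (opp ε) = opp (DD f (act g x₀) ε) := by
  by_contra h
  have h1 := DD_comm H g (opp_ne ε) h
  rw [DD_back H g ε] at h1
  exact h h1.symm

theorem DD_step (H : ∀ g, ∃ φ, Loc hd f (act g x₀) φ) (g : Fin d → ℤ) (ε ζ : Dir d) :
    DD f (act (vec ε) (act g x₀)) ζ = DD f (act g x₀) ζ := by
  by_cases h1 : ζ = ε
  · subst h1
    have h2 := DD_back H g ζ
    have h3 : DD f (act (vec ζ) (act g x₀)) (opp ζ) = opp (DD f (act (vec ζ) (act g x₀)) ζ) := by
      rw [act_act]
      exact DD_opp H _ ζ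
    rw [h3] at h2
    have := congrArg opp h2
    rwa [opp_opp, opp_opp] at this
  · by_cases h2 : DD f (act g x₀) ζ = opp (DD f (act g x₀) ε)
    · have h3 : ζ = opp ε := (DD_bij H g).1 (h2.trans (DD_opp H g ε).symm)
      rw [h3, DD_back H g ε, DD_opp H g ε]
    · exact DD_comm H g h1 h2

theorem exists_wsum (g : Fin d → ℤ) : ∃ l : List (Dir d), wsum l = g := by
  have h : ∀ (i : Fin d) (t : ℤ), wsum (List.replicate t.natAbs ((i, decide (0 ≤ t)) : Dir d)) =
      Pi.single i t := by
    intro i t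
    unfold wsum
    rw [List.map_replicate, List.sum_replicate]
    by_cases h : 0 ≤ t
    · simp only [vec, h, decide_true, if_true]
      rw [← Pi.single_smul, nsmul_eq_mul, mul_one]
      congr 1
      omega
    · simp only [vec, h, decide_false, Bool.false_eq_true, if_false]
      rw [smul_neg, ← Pi.single_smul, nsmul_eq_mul, mul_one, ← Pi.single_neg]
      congr 1
      omega
  have h2 : ∀ s : Finset (Fin d), ∃ l : List (Dir d), wsum l = ∑ i ∈ s, Pi.single i (g i) := by
    classical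
    intro s
    induction s using Finset.induction_on with
    | empty => exact ⟨[], by simp [wsum_nil]⟩
    | insert i s hi ih =>
      obtain ⟨l, hl⟩ := ih
      exact ⟨List.replicate (g i).natAbs ((i, decide (0 ≤ g i)) : Dir d) ++ l, by
        rw [wsum_append, h, hl, Finset.sum_insert hi]⟩
  obtain ⟨l, hl⟩ := h2 Finset.univ
  exact ⟨l, by rw [hl, Finset.univ_sum_single]⟩

theorem DD_const (H : ∀ g, ∃ φ, Loc hd f (act g x₀) φ) (g : Fin d → ℤ) :
    DD f (act g x₀) = DD f x₀ := by
  obtain ⟨l, rfl⟩ := exists_wsum g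
  induction l with
  | nil => rw [wsum_nil, act_zero]
  | cons ε l ih =>
    rw [← ih, wsum_cons, ← act_act]
    funext ζ
    exact DD_step H _ ε ζ

theorem map_wsum (H : ∀ g, ∃ φ, Loc hd f (act g x₀) φ) {g : Fin d → ℤ} {φ}
    (hφ : Loc hd f (act g x₀) φ) {E : Dir d → Dir d} (hE : ∀ δ, DD f x₀ (E δ) = δ)
    (l : List (Dir d)) (hl : l.length ≤ 4) :
    φ (wsum l) = act (wsum (l.map E)) (act g x₀) := by
  induction l with
  | nil => rw [List.map_nil, wsum_nil, act_zero, hφ.zero]
  | cons δ l ih =>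
    rw [List.length_cons] at hl
    obtain ⟨ε, h1, h2⟩ := hφ.step l δ (by omega)
    have ih' := ih (by omega)
    rw [ih'] at h1 h2
    rw [wsum_cons, add_comm, h1, List.map_cons, wsum_cons, ← act_act]
    rw [act_act, DD_const H] at h2
    have h3 : ε = E δ := by
      have := DD_bij H 0
      rw [act_zero] at this
      exact this.1 (h2.trans (hE δ).symm)
    rw [h3]

include hd in
/-- the coordinates of `emb t s` after the change of the directions -/
theorem wsum_emb {E : Dir d → Dir d} (hE : ∀ δ, E (opp δ) = opp (E δ)) (t s : ℤ) :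
    wsum ((List.replicate t.natAbs ((⟨0, by omega⟩, decide (0 ≤ t)) : Dir d) ++
      List.replicate s.natAbs ((⟨1, by omega⟩, decide (0 ≤ s)) : Dir d)).map E) =
      t • vec (E (⟨0, by omega⟩, true)) + s • vec (E (⟨1, by omega⟩, true)) := by
  have h : ∀ (i : Fin d) (t : ℤ),
      wsum ((List.replicate t.natAbs ((i, decide (0 ≤ t)) : Dir d)).map E) =
        t • vec (E (i, true)) := by
    intro i t
    unfold wsum
    rw [List.map_replicate, List.map_replicate, List.sum_replicate]
    by_cases h : 0 ≤ t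
    · simp only [h, decide_true]
      rw [← natCast_zsmul]
      congr 1
      omega
    · simp only [h, decide_false]
      have h1 : ((i, false) : Dir d) = opp (i, true) := rfl
      rw [h1, hE, vec_opp, smul_neg, ← natCast_zsmul, ← neg_smul]
      congr 1
      omega
  rw [List.map_append, wsum_append, h, h]

/-- **A solution on an orbit is a solution of the problem on `ℤ²` for two directions.** -/
theorem orbit_rule (H : ∀ g, ∃ φ, Loc hd f (act g x₀) φ) :
    ∃ E : Dir d → Dir d, (∀ g δ, DD f (act g x₀) (E δ) = δ) ∧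
      (∀ g, Function.Injective (DD f (act g x₀))) ∧
      ∀ t s : ℤ, Rule (fun t' s' => (f (act (t' • vec (E (⟨0, by omega⟩, true)) +
        s' • vec (E (⟨1, by omega⟩, true))) x₀)).2.2) t s := by
  have hbij : Function.Bijective (DD f x₀) := by
    have := DD_bij H 0
    rwa [act_zero] at this
  choose E hE using hbij.2
  have hopp : ∀ δ, E (opp δ) = opp (E δ) := by
    intro δ
    apply hbij.1
    have := DD_opp H 0 (E δ)
    rw [act_zero] at this
    rw [this, hE, hE]
  refine ⟨E, fun g δ => by rw [DD_const H, hE], fun g => (DD_bij H g).1, fun t s => ?_⟩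
  set u := vec (E (⟨0, by omega⟩, true)) with hu
  set v := vec (E (⟨1, by omega⟩, true)) with hv
  obtain ⟨φ, hφ⟩ := H (t • u + s • v)
  refine Rule_congr (t := 0) (x := 0) (t' := t) (x' := s) ?_ hφ.rule
  intro a b ha hb
  rw [abs_le] at ha hb
  have e1 := wsum_emb (hd := hd) hopp a b
  rw [← hu, ← hv] at e1
  have e2 : a • u + b • v + (t • u + s • v) = (t + a) • u + (s + b) • v := by
    rw [add_smul, add_smul]
    abel
  rw [zero_add, zero_add, emb_eq_wsum hd a b, map_wsum H hφ hE _ (by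
    simp only [List.length_append, List.length_replicate]
    omega), e1, act_act, e2]

end Pool.Agent.H75C.SG
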