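import Pool.Agent.H75C.SG.Loc
import Pool.Agent.W927.BM.Circ

set_option autoImplicit false

/-! # No measurable solution for codings of rotations of the circle -/

noncomputable section

namespace Pool.Agent.H75C.SG

open MeasureTheory
open Pool.Agent.W927 (TT lin code code_free)
open Pool.Agent.W927.BM (Lab Rule Rule_congr emb)

variable {d : ℕ}

/-- all nonzero vectors act by rotations of infinite order -/
abbrev Irr (α : Fin d → TT) : Prop := ∀ g : Fin d → ℤ, g ≠ 0 → addOrderOf (lin α g) = 0

/-- the coding of a point of the circle -/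
def cod {α : Fin d → TT} (hα : Irr α) (θ : TT) : FreePart d := ⟨code α θ, code_free hα θ⟩

theorem measurable_cod {α : Fin d → TT} (hα : Irr α) : Measurable (cod hα) :=
  Pool.Agent.W927.measurable_codeF hα

theorem cod_add {α : Fin d → TT} (hα : Irr α) (θ : TT) (g : Fin d → ℤ) :
    cod hα (θ + lin α g) = act g (cod hα θ) :=
  Subtype.ext (Pool.Agent.W927.code_shift α θ g)

/-- the image of Lebesgue measure under the coding -/
def cμ {α : Fin d → TT} (hα : Irr α) : Measure (FreePart d) := Measure.map (cod hα) volume

instance instProb {α : Fin d → TT} (hα : Irr α) : IsProbabilityMeasure (cμ hα) := by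
  have hP : IsProbabilityMeasure (volume : Measure TT) := ⟨by simp⟩
  exact Measure.isProbabilityMeasure_map (μ := (volume : Measure TT))
    (measurable_cod hα).aemeasurable

theorem cμ_inv {α : Fin d → TT} (hα : Irr α) (g : Fin d → ℤ) :
    MeasurePreserving (act g) (cμ hα) (cμ hα) := by
  refine ⟨measurable_act g, ?_⟩
  unfold cμ
  rw [Measure.map_map (measurable_act g) (measurable_cod hα)]
  have e : act g ∘ cod hα = cod hα ∘ fun θ => θ + lin α g := by
    funext θ
    exact (cod_add hα θ g).symm
  rw [e, ← Measure.map_map (measurable_cod hα) (measurable_add_const _)]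
  rw [(measurePreserving_add_right volume (lin α g)).map_eq]

theorem no_solution (hd : 2 ≤ d) (N : ℕ) {α : Fin d → TT} (hα : Irr α) :
    ¬ (prob hd N).HasSolutionFor (cμ hα) := by
  classical
  rintro ⟨(f : FreePart d → ELab d N), hf, hs⟩
  have hP : IsProbabilityMeasure (volume : Measure TT) := ⟨by simp⟩
  let _ : MeasurableSpace (ELab d N) := ⊤
  have _ : DiscreteMeasurableSpace (ELab d N) := ⟨fun _ => trivial⟩
  have hrot : ∀ g : Fin d → ℤ,
      MeasurePreserving (fun θ : TT => θ + lin α g) volume volume := fun g =>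
    measurePreserving_add_right volume _
  -- the labelling on the circle
  have hF0 : NullMeasurable (fun θ => f (cod hα θ)) (volume : Measure TT) := by
    intro s _
    have e : (fun θ => f (cod hα θ)) ⁻¹' s = ⋃ l ∈ s, cod hα ⁻¹' (f ⁻¹' {l}) := by
      ext y; simp
    rw [e]
    exact NullMeasurableSet.biUnion (Set.to_countable s) fun l _ =>
      (hf l).preimage ((measurable_cod hα).quasiMeasurePreserving volume)
  obtain ⟨F, hF, hfF⟩ := hF0.aemeasurable
  have hFe : ∀ᵐ θ : TT, ∀ g : Fin d → ℤ, f (act g (cod hα θ)) = F (θ + lin α g) := by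
    rw [ae_all_iff]
    intro g
    have := (hrot g).quasiMeasurePreserving.ae (p := fun θ => f (cod hα θ) = F θ) hfF
    filter_upwards [this] with θ h
    rw [← cod_add]
    exact h
  have hsol : ∀ᵐ θ : TT, ∀ g : Fin d → ℤ,
      (prob hd N).SolvesAt (shiftGraph d) f (act g (cod hα θ)) := by
    have h1 : ∀ᵐ θ : TT, (prob hd N).SolvesAt (shiftGraph d) f (cod hα θ) :=
      ((measurable_cod hα).quasiMeasurePreserving volume).ae
        (p := fun x => (prob hd N).SolvesAt (shiftGraph d) f x) hs
    rw [ae_all_iff]
    intro g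
    have := (hrot g).quasiMeasurePreserving.ae
      (p := fun θ => (prob hd N).SolvesAt (shiftGraph d) f (cod hα θ)) h1
    filter_upwards [this] with θ h
    rw [← cod_add]
    exact h
  -- the directions
  let A : (Dir d → Dir d) → Set TT := fun E =>
    {θ | ∀ δ, dirOf (F θ) (F (θ + lin α (vec (E δ)))) = δ}
  have hA : ∀ E, MeasurableSet (A E) := by
    intro E
    have e : A E = ⋂ δ, {θ | dirOf (F θ) (F (θ + lin α (vec (E δ)))) = δ} := by
      ext θ; simp [A]
    rw [e]
    refine MeasurableSet.iInter fun δ => ?_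
    have h1 : Measurable fun θ : TT => (F θ, F (θ + lin α (vec (E δ)))) :=
      hF.prodMk (hF.comp (measurable_add_const _))
    have h2 : MeasurableSet {p : ELab d N × ELab d N | dirOf p.1 p.2 = δ} :=
      (Set.toFinite _).measurableSet
    exact h1 h2
  have key : ∀ᵐ θ : TT, ∃ E : Dir d → Dir d,
      (∀ g δ, dirOf (F (θ + lin α g)) (F (θ + lin α g + lin α (vec (E δ)))) = δ) ∧
      (∀ g, Function.Injective fun ε : Dir d => dirOf (F (θ + lin α g))
        (F (θ + lin α g + lin α (vec ε)))) ∧
      ∀ t s : ℤ, Rule (fun t' s' => (F (θ + lin α (t' • vec (E (⟨0, by omega⟩, true)) +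
        s' • vec (E (⟨1, by omega⟩, true))))).2.2) t s := by
    filter_upwards [hFe, hsol] with θ h1 h2
    have h3 : ∀ g, ∃ φ, Loc hd f (act g (cod hα θ)) φ := fun g => exists_loc hd (h2 g)
    obtain ⟨E, hE1, hE2, hE3⟩ := orbit_rule h3
    have h4 : ∀ g ε, DD f (act g (cod hα θ)) ε =
        dirOf (F (θ + lin α g)) (F (θ + lin α g + lin α (vec ε))) := by
      intro g ε
      unfold DD
      rw [act_act, h1, h1, map_add, add_assoc, add_comm (lin α (vec ε))]
    refine ⟨E, fun g δ => by rw [← h4, hE1], fun g => ?_, fun t s => ?_⟩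
    · have := hE2 g
      intro ε ζ h
      exact this (by rw [h4, h4]; exact h)
    · have e : (fun t' s' : ℤ => (F (θ + lin α (t' • vec (E (⟨0, by omega⟩, true)) +
        s' • vec (E (⟨1, by omega⟩, true))))).2.2) = fun t' s' : ℤ =>
          (f (act (t' • vec (E (⟨0, by omega⟩, true)) +
            s' • vec (E (⟨1, by omega⟩, true))) (cod hα θ))).2.2 := by
        funext t' s'
        rw [h1]
      rw [e]
      exact hE3 t s
  -- one choice of the directions is right almost everywhere
  let β : Fin d → ℤ := Pi.single ⟨0, by omega⟩ 1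
  have hβ : β ≠ 0 := by
    intro h
    have := congrFun h ⟨0, by omega⟩
    simp [β] at this
  have herg : ∀ g : Fin d → ℤ, g ≠ 0 → Ergodic (fun θ : TT => θ + lin α g) volume := by
    intro g hg
    exact AddCircle.ergodic_add_right.2 (hα g hg)
  have hconull : ∃ E, (∀ᵐ θ : TT, θ ∈ A E) := by
    by_contra hcon
    have h1 : ∀ E, ∀ᵐ θ : TT, θ ∉ A E := by
      intro E
      have hinv : (fun θ : TT => θ + lin α β) ⁻¹' (A E) =ᵐ[volume] A E := by
        filter_upwards [key] with θ hθ
        obtain ⟨E₀, hE1, hE2, -⟩ := hθ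
        have h2 : (∀ δ, dirOf (F θ) (F (θ + lin α (vec (E δ)))) = δ) ↔ E = E₀ := by
          constructor
          · intro h
            funext δ
            have h3 := hE1 0 δ
            have h4 := hE2 0
            simp only [map_zero, add_zero] at h3 h4
            exact h4 ((h δ).trans h3.symm)
          · rintro rfl δ
            have h3 := hE1 0 δ
            simpa only [map_zero, add_zero] using h3
        have h2' : (∀ δ, dirOf (F (θ + lin α β)) (F (θ + lin α β + lin α (vec (E δ)))) = δ) ↔
            E = E₀ := by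
          constructor
          · intro h
            funext δ
            exact hE2 β ((h δ).trans (hE1 β δ).symm)
          · rintro rfl δ
            exact hE1 β δ
        exact propext (h2'.trans h2.symm)
      rcases (herg β hβ).quasiErgodic.ae_mem_or_ae_notMem₀ (hA E).nullMeasurableSet hinv with
        h2 | h2
      · exact absurd ⟨E, h2⟩ hcon
      · exact h2
    have h2 : ∀ᵐ θ : TT, ∀ E, θ ∉ A E := ae_all_iff.2 h1
    have h3 : ∀ᵐ _θ : TT, False := by
      filter_upwards [h2, key] with θ h4 h5
      obtain ⟨E, hE1, -⟩ := h5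
      refine h4 E fun δ => ?_
      have h3 := hE1 0 δ
      simpa only [map_zero, add_zero] using h3
    rw [ae_iff] at h3
    simp at h3
  obtain ⟨E, hE⟩ := hconull
  set u := vec (E (⟨0, by omega⟩, true)) with hu
  set v := vec (E (⟨1, by omega⟩, true)) with hv
  refine Pool.Agent.W927.BM.neg TT volume (fun t s θ => θ + lin α (t • u + s • v)) ?_ ?_ ?_ ?_
    ⟨fun θ => (F θ).2.2, ?_, ?_⟩
  · intro θ
    simp
  · intro s t x z θ
    simp only [add_smul, map_add]
    abel
  · exact fun t s => hrot _
  · have h1 : (fun θ : TT => θ + lin α ((0 : ℤ) • u + (1 : ℤ) • v)) = fun θ => θ + lin α v := by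
      funext θ
      simp
    rw [h1]
    exact herg v (vec_ne_zero _)
  · intro l
    exact hF (MeasurableSet.of_discrete (s := {p : ELab d N | p.2.2 = l}))
  · filter_upwards [key, hE] with θ h1 h2 t s
    obtain ⟨E₀, hE1, hE2, hE3⟩ := h1
    have h3 : E = E₀ := by
      funext δ
      have h3 := hE1 0 δ
      have h4 := hE2 0
      simp only [map_zero, add_zero] at h3 h4
      exact h4 ((h2 δ).trans h3.symm)
    subst h3
    exact hE3 t s

end Pool.Agent.H75C.SG
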