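import Pool.Agent.H75C.SG.Enc
import Pool.Agent.Helper611.UF.Tool3

set_option autoImplicit false

/-! # The Baire measurable solution -/

noncomputable section

namespace Pool.Agent.H75C.SG

open Pool.Agent.W927.BM (Lab Rule Rule_congr emb emb_add emb_zero emb_eq_zero)
open TopologicalSpace

variable {d : ℕ}

/-! ## topology of the free part -/

theorem continuous_shift (g : Fin d → ℤ) : Continuous (shift g : Conf d → Conf d) :=
  continuous_pi fun h => continuous_apply (h + g)

theorem polish_of_isGdelta {Y : Type} [TopologicalSpace Y] [PolishSpace Y] {s : Set Y}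
    (hs : IsGδ s) : PolishSpace s := by
  obtain ⟨U, hU, rfl⟩ := hs.eq_iInter_nat
  have : ∀ n, PolishSpace (U n) := fun n => (hU n).polishSpace
  let f : (⋂ n, U n : Set Y) → ∀ n, U n := fun x n => ⟨x, Set.mem_iInter.1 x.2 n⟩
  have hfc : Continuous f := continuous_pi (fun n => Continuous.subtype_mk continuous_subtype_val _)
  have hg : Continuous (fun p : ∀ n, U n => (p 0 : Y)) :=
    continuous_subtype_val.comp (continuous_apply 0)
  have hind : Topology.IsInducing f := by
    apply Topology.IsInducing.of_comp hfc hg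
    exact Topology.IsInducing.subtypeVal
  have hinj : Function.Injective f := by
    intro x y hxy
    have h1 := congrFun hxy 0
    have h2 : ((f x 0 : U 0) : Y) = ((f y 0 : U 0) : Y) := congrArg (fun z : U 0 => (z : Y)) h1
    exact Subtype.ext h2
  have hrange : Set.range f = ⋂ n, {p : ∀ n, U n | (p n : Y) = (p 0 : Y)} := by
    ext p
    simp only [Set.mem_range, Set.mem_iInter]
    constructor
    · rintro ⟨x, rfl⟩ n
      rfl
    · intro h
      refine ⟨⟨p 0, Set.mem_iInter.2 (fun n => ?_)⟩, ?_⟩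
      · have h2 : (p n : Y) = (p 0 : Y) := h n
        rw [← h2]
        exact (p n).2
      · funext n
        have h2 : (p n : Y) = (p 0 : Y) := h n
        exact Subtype.ext h2.symm
  have hcl : IsClosed (Set.range f) := by
    rw [hrange]
    apply isClosed_iInter
    intro n
    exact isClosed_eq (continuous_subtype_val.comp (continuous_apply n)) hg
  exact Topology.IsClosedEmbedding.polishSpace (f := f) ⟨⟨hind, hinj⟩, hcl⟩

instance instPolish : PolishSpace (FreePart d) := by
  have h : IsGδ {x : Conf d | ∀ g : Fin d → ℤ, g ≠ 0 → shift g x ≠ x} := by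
    have e : {x : Conf d | ∀ g : Fin d → ℤ, g ≠ 0 → shift g x ≠ x} =
        ⋂ g : {g : Fin d → ℤ // g ≠ 0}, {x : Conf d | shift g.1 x ≠ x} := by
      ext x
      simp
    rw [e]
    refine IsGδ.iInter fun g => IsOpen.isGδ ?_
    exact isOpen_ne_fun (continuous_shift _) continuous_id
  have _ : PolishSpace Bool := inferInstance
  have _ : PolishSpace (Conf d) := inferInstance
  exact polish_of_isGdelta h

theorem continuous_act (g : Fin d → ℤ) : Continuous (act g : FreePart d → FreePart d) :=
  Continuous.subtype_mk ((continuous_shift g).comp continuous_subtype_val) _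

theorem measurable_act (g : Fin d → ℤ) : Measurable (act g : FreePart d → FreePart d) :=
  (continuous_act g).measurable

/-- the action as a homeomorphism -/
def actH (g : Fin d → ℤ) : FreePart d ≃ₜ FreePart d where
  toFun := act g
  invFun := act (-g)
  left_inv x := by rw [act_act, neg_add_cancel, act_zero]
  right_inv x := by rw [act_act, add_neg_cancel, act_zero]
  continuous_toFun := continuous_act g
  continuous_invFun := continuous_act (-g)

theorem residual_act {C : Set (FreePart d)} (hC : C ∈ residual (FreePart d)) (g : Fin d → ℤ) :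
    act g ⁻¹' C ∈ residual (FreePart d) :=
  (tendsto_residual_of_isOpenMap (actH g).continuous (actH g).isOpenMap) hC

/-! ## a colouring -/

/-- the number of colours -/
def NC (d : ℕ) : ℕ := Fintype.card (Dir d × Dir d) + 1

theorem exists_colouring {Y : Type} [MeasurableSpace Y] [StandardBorelSpace Y]
    {a : (Fin d → ℤ) → Y → Y} (ha : IsFreeAction a) (hm : ∀ g, Measurable (a g)) :
    ∃ κ : Y → Fin (NC d), Measurable κ ∧
    ∀ x, Function.Injective fun δ : Dir d => κ (a (vec δ) x) := by
  classical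
  let I := Dir d × Dir d
  let M := Fintype.card I
  let e : I ≃ Fin M := Fintype.equivFin I
  let f : Fin M → Y → Y := fun i => a (vec (e.symm i).1 - vec (e.symm i).2)
  obtain ⟨κ, hκ, h⟩ := Pool.Agent.Helper611.UF.greedy f (fun i => hm _) (by
    intro x i
    refine ⟨e ((e.symm i).2, (e.symm i).1), ?_⟩
    simp only [f, Equiv.symm_apply_apply, ← ha.add]
    rw [show vec (e.symm i).2 - vec (e.symm i).1 + (vec (e.symm i).1 - vec (e.symm i).2) =
      (0 : Fin d → ℤ) by abel, ha.zero])
  refine ⟨κ, hκ, fun x δ ε hδε => ?_⟩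
  by_contra hne
  have h1 := h (a (vec ε) x) (e (δ, ε)) (by
    simp only [f, Equiv.symm_apply_apply, ← ha.add, sub_add_cancel]
    intro h2
    exact hne (vec_injective (ha.inj h2)))
  simp only [f, Equiv.symm_apply_apply, ← ha.add, sub_add_cancel] at h1
  exact h1 hδε

open Classical in
/-- the table with given colours of the neighbours -/
def tbl {N : ℕ} (δ₀ : Dir d) (k : Dir d → Fin N) (a : Fin N) : Dir d :=
  if h : ∃ δ, k δ = a then h.choose else δ₀

theorem tbl_apply {N : ℕ} (δ₀ : Dir d) (k : Dir d → Fin N) (hk : Function.Injective k)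
    (δ : Dir d) : tbl δ₀ k (k δ) = δ := by
  have h : ∃ ε, k ε = k δ := ⟨δ, rfl⟩
  unfold tbl
  rw [dif_pos h]
  exact hk h.choose_spec

/-- the vectors `emb t s` are sums of short words -/
theorem emb_eq_wsum (hd : 2 ≤ d) (t s : ℤ) : emb hd t s =
    wsum (List.replicate t.natAbs ((⟨0, by omega⟩, decide (0 ≤ t)) : Dir d) ++
      List.replicate s.natAbs ((⟨1, by omega⟩, decide (0 ≤ s)) : Dir d)) := by
  have h : ∀ (i : Fin d) (t : ℤ), wsum (List.replicate t.natAbs ((i, decide (0 ≤ t)) : Dir d)) =
      Pi.single i t := by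
    intro i t
    unfold wsum
    rw [List.map_replicate, List.sum_replicate]
    by_cases h : 0 ≤ t
    · simp only [vec, h, decide_true, if_true]
      rw [← Pi.single_smul, nsmul_eq_mul, mul_one]
      congr 1
      omega
    · simp only [vec, h, decide_false, Bool.false_eq_true, if_false]
      rw [smul_neg, ← Pi.single_smul, nsmul_eq_mul, mul_one, ← Pi.single_neg]
      congr 1
      omega
  rw [wsum_append, h, h]
  rfl

section General

variable {Y : Type} {a : (Fin d → ℤ) → Y → Y}

theorem mem_ball_wsum (ha : IsFreeAction a) (l : List (Dir d)) (x : Y) {r : ℕ}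
    (hl : l.length ≤ r) : a (wsum l) x ∈ ball (graphOf a) r x := by
  obtain ⟨p, hp⟩ := exists_walk ha l x
  exact ⟨p, hp.trans hl⟩

/-- a solution of the problem on `ℤ²` together with a coding of the directions -/
theorem solves_of (hd : 2 ≤ d) (ha : IsFreeAction a) {N : ℕ} (F : Y → ELab d N)
    (hdir : ∀ x δ, dirOf (F x) (F (a (vec δ) x)) = δ) {x : Y}
    (hR : Rule (fun t s => (F (a (emb hd t s) x)).2.2) 0 0) :
    (prob hd N).SolvesAt (graphOf a) F x := by
  classical
  let φ : (Fin d → ℤ) → ball (graphOf a) 4 x := fun g =>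
    if h : a g x ∈ ball (graphOf a) 4 x then ⟨a g x, h⟩ else ⟨x, mem_ball_self _ _ _⟩
  have hφ : ∀ l : List (Dir d), l.length ≤ 4 → (φ (wsum l)).1 = a (wsum l) x := by
    intro l hl
    simp only [φ, dif_pos (mem_ball_wsum ha l x hl)]
  have hφ' : ∀ (l : List (Dir d)) (δ : Dir d), l.length ≤ 3 →
      (φ (wsum l + vec δ)).1 = a (vec δ) (a (wsum l) x) := by
    intro l δ hl
    have h := hφ (δ :: l) (by rw [List.length_cons]; omega)
    rwa [wsum_cons, ha.add, add_comm (vec δ)] at h
  refine ⟨φ, ?_, ?_, ?_, ?_⟩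
  · refine Subtype.ext ?_
    have := hφ [] (by simp)
    rwa [wsum_nil, ha.zero] at this
  · intro l δ hl
    change (graphOf a).Adj (φ (wsum l)).1 (φ (wsum l + vec δ)).1
    rw [hφ l (by omega), hφ' l δ hl, adj_iff ha]
    exact ⟨δ, rfl⟩
  · intro l δ hl
    change dirOf (F (φ (wsum l)).1) (F (φ (wsum l + vec δ)).1) = δ
    rw [hφ l (by omega), hφ' l δ hl]
    exact hdir _ _
  · refine Rule_congr (t := 0) (x := 0) (t' := 0) (x' := 0) ?_ hR
    intro s z hs hz
    rw [zero_add, zero_add]
    change (F (a (emb hd s z) x)).2.2 = (F (φ (emb hd s z)).1).2.2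
    rw [emb_eq_wsum hd s z, hφ]
    rw [abs_le] at hs hz
    simp only [List.length_append, List.length_replicate]
    omega

end General

/-- Baire measurable solution on the shift graph. -/
theorem prob_baire (hd : 2 ≤ d) : (prob hd (NC d)).HasBaireSolution d := by
  classical
  obtain ⟨κ, hκ, hinj⟩ := exists_colouring (isFree_act (d := d)) measurable_act
  have T0 : ∀ y : FreePart d, act (emb hd 0 0) y = y := fun y => by rw [emb_zero, act_zero]
  have Tadd : ∀ (s t x z : ℤ) (y : FreePart d), act (emb hd (s + t) (x + z)) y =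
      act (emb hd s x) (act (emb hd t z) y) := fun s t x z y => by rw [emb_add, act_act]
  obtain ⟨lab, G, hf, hG, hGinv, hGres, hGR⟩ := Pool.Agent.W927.BM.pos (FreePart d)
    (fun t x => act (emb hd t x)) T0 Tadd (fun t x => measurable_act _)
    (fun t x y h => emb_eq_zero hd (act_free _ _ h))
  let δ₀ : Dir d := (⟨0, by omega⟩, true)
  let F : FreePart d → ELab d (NC d) := fun x =>
    (κ x, tbl δ₀ (fun δ => κ (act (vec δ) x)), lab x)
  have hdir : ∀ x δ, dirOf (F x) (F (act (vec δ) x)) = δ := fun x δ =>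
    tbl_apply δ₀ (fun δ => κ (act (vec δ) x)) (hinj x) δ
  refine ⟨F, ⋂ g : Fin d → ℤ, act g ⁻¹' G, ?_, ?_, ?_, ?_, ?_⟩
  · rintro ⟨c, t, b⟩
    have e : F ⁻¹' {(c, t, b)} = κ ⁻¹' {c} ∩
        ((fun x => fun δ : Dir d => κ (act (vec δ) x)) ⁻¹' {k | tbl δ₀ k = t} ∩ lab ⁻¹' {b}) := by
      ext x
      simp [F, Prod.ext_iff]
    have key : MeasurableSet (κ ⁻¹' {c} ∩
        ((fun x => fun δ : Dir d => κ (act (vec δ) x)) ⁻¹' {k | tbl δ₀ k = t} ∩ lab ⁻¹' {b})) := by
      refine (hκ (measurableSet_singleton c)).inter (MeasurableSet.inter ?_ (hf b))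
      exact (measurable_pi_lambda _ fun δ => hκ.comp (measurable_act _))
        (Set.toFinite _).measurableSet
    rw [← e] at key
    exact key
  · exact MeasurableSet.iInter fun g => measurable_act g hG
  · intro g x hx
    rw [Set.mem_iInter] at hx ⊢
    intro h
    have := hx (h + g)
    rw [Set.mem_preimage, act_act]
    exact this
  · rw [countable_iInter_mem]
    exact fun g => residual_act hGres g
  · intro x hx
    have hx' : x ∈ G := by
      have := Set.mem_iInter.1 hx 0
      rwa [Set.mem_preimage, act_zero] at this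
    exact solves_of hd isFree_act F hdir (hGR x hx' 0 0)

/-- the solution of the problem on `ℤ²` from the library -/
theorem exists_lab_aux (hd : 2 ≤ d) {k : ℕ} (eLab : Fin k ≃ Lab) {Y : Type}
    [TopologicalSpace Y] [PolishSpace Y]
    [MeasurableSpace Y] [BorelSpace Y] {a : (Fin d → ℤ) → Y → Y} (ha : IsFreeAction a)
    (hm : ∀ g, Measurable (a g)) :
    ∃ lab : Y → Lab, (∀ b, BaireMeasurableSet (lab ⁻¹' {b})) ∧
      ∀ x, Rule (fun t s => lab (a (emb hd t s) x)) 0 0 := by
  obtain ⟨lb, hlb, hlab⟩ := Pool.Agent.W927.BM.PBM_inBaire hd eLab Y a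
    ⟨ha.zero, ha.add, hm, ha.free⟩
  replace hlab := (Pool.Agent.W927.BM.PBM_iff hd eLab ha.add lb).1 hlab
  refine ⟨fun x => eLab (lb x), fun b => ?_, fun x => hlab x 0 0⟩
  have h1 : (fun x => eLab (lb x)) ⁻¹' {b} = lb ⁻¹' {eLab.symm b} := by
    ext x
    exact (Equiv.eq_symm_apply eLab).symm
  rw [h1]
  exact hlb _

theorem exists_lab (hd : 2 ≤ d) {Y : Type} [TopologicalSpace Y] [PolishSpace Y]
    [MeasurableSpace Y] [BorelSpace Y] {a : (Fin d → ℤ) → Y → Y} (ha : IsFreeAction a)
    (hm : ∀ g, Measurable (a g)) :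
    ∃ lab : Y → Lab, (∀ b, BaireMeasurableSet (lab ⁻¹' {b})) ∧
      ∀ x, Rule (fun t s => lab (a (emb hd t s) x)) 0 0 :=
  exists_lab_aux hd (Fintype.equivFin Lab).symm ha hm

/-- Solutions with the property of Baire for all free Borel actions on Polish spaces. -/
theorem prob_baireSolvable (hd : 2 ≤ d) : (prob hd (NC d)).BaireSolvable d := by
  classical
  intro Y _ _ _ _ a ha hm
  obtain ⟨κ, hκ, hinj⟩ := exists_colouring ha hm
  obtain ⟨lab, hf, hlab⟩ := exists_lab hd ha hm
  let δ₀ : Dir d := (⟨0, by omega⟩, true)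
  let F : Y → ELab d (NC d) := fun x =>
    (κ x, tbl δ₀ (fun δ => κ (a (vec δ) x)), lab x)
  have hdir : ∀ x δ, dirOf (F x) (F (a (vec δ) x)) = δ := fun x δ =>
    tbl_apply δ₀ (fun δ => κ (a (vec δ) x)) (hinj x) δ
  refine ⟨F, ?_, fun x => solves_of hd ha F hdir (hlab x)⟩
  rintro ⟨c, t, b⟩
  have e : F ⁻¹' {(c, t, b)} = (κ ⁻¹' {c} ∩
      (fun x => fun δ : Dir d => κ (a (vec δ) x)) ⁻¹' {k | tbl δ₀ k = t}) ∩
        lab ⁻¹' {b} := by
    ext x
    simp [F, Prod.ext_iff, and_assoc]
  have key : MeasurableSet (κ ⁻¹' {c} ∩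
      (fun x => fun δ : Dir d => κ (a (vec δ) x)) ⁻¹' {k | tbl δ₀ k = t}) :=
    (hκ (measurableSet_singleton c)).inter
      ((measurable_pi_lambda _ fun δ => hκ.comp (hm _)) (Set.toFinite _).measurableSet)
  have key2 : BaireMeasurableSet ((κ ⁻¹' {c} ∩
      (fun x => fun δ : Dir d => κ (a (vec δ) x)) ⁻¹' {k | tbl δ₀ k = t}) ∩
        lab ⁻¹' {b}) := key.baireMeasurableSet.inter (hf _)
  rw [← e] at key2
  exact key2

end Pool.Agent.H75C.SG
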